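import Mathlib

/-!
# MP_e17eac_co: many halving lines.  Definitions and statements of the blueprint items

Goal: point sets with `n exp (c (log n)^(2/3))` halving lines.
-/

namespace Pool.Agent.Work.MP_e17eac_co.HL

open Finset

/-! ### The final notions (as in the problem) -/

/-- Twice the signed area of the triangle `p q r`. It is positive exactly when `r` lies in the open
half-plane to the left of the directed line `p → q`, negative exactly when `r` lies in the open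
half-plane to its right, and zero exactly when `r` is on the line (for `p ≠ q`). -/
def side (p q r : ℝ × ℝ) : ℝ := (q.1 - p.1) * (r.2 - p.2) - (q.2 - p.2) * (r.1 - p.1)

/-- The line through the distinct points `p, q` of `P` is a bisector (halving line) of `P`:
each of the two open half-planes bounded by it contains exactly `|P|/2 - 1` points of `P`. -/
def IsHalving (P : Finset (ℝ × ℝ)) (p q : ℝ × ℝ) : Prop :=
  p ∈ P ∧ q ∈ P ∧ p ≠ q ∧
    {r | r ∈ P ∧ 0 < side p q r}.ncard + 1 = P.card / 2 ∧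
    {r | r ∈ P ∧ side p q r < 0}.ncard + 1 = P.card / 2

/-- The set of bisectors (halving lines) of `P`. -/
def bisectors (P : Finset (ℝ × ℝ)) : Set (AffineSubspace ℝ (ℝ × ℝ)) :=
  {l | ∃ p q, IsHalving P p q ∧ l = affineSpan ℝ {p, q}}

/-- No three points of `P` are on a common line. -/
def GeneralPosition (P : Finset (ℝ × ℝ)) : Prop :=
  ∀ p ∈ P, ∀ q ∈ P, ∀ r ∈ P, p ≠ q → p ≠ r → q ≠ r → ¬ Collinear ℝ {p, q, r}

/-- there are `n` points in general position with at least `m` halving lines -/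
def Real2 (n m : ℕ) : Prop :=
  ∃ P : Finset (ℝ × ℝ), P.card = n ∧ GeneralPosition P ∧ m ≤ (bisectors P).ncard

/-! ### Lines `x = p.1 + m (y - p.2)` -/

/-- `off p m r > 0` iff `r` is to the left of the line through `p` with slope `m` (the slope is
the change of `x` per unit of `y`), `< 0` iff it is to the right, `0` iff it is on the line -/
def off (p : ℝ × ℝ) (m : ℝ) (r : ℝ × ℝ) : ℝ := p.1 + m * (r.2 - p.2) - r.1

/-- the sign as an integer -/
noncomputable def sg (z : ℝ) : ℤ := (SignType.sign z : ℤ)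

/-- the line through `P p` of slope `m` passes through `P q` and no other point and has equally
many points on both sides -/
def Hal {V : Type} [Fintype V] (P : V → ℝ × ℝ) (p q : V) (m : ℝ) : Prop :=
  off (P p) m (P q) = 0 ∧ (∀ r, r ≠ p → r ≠ q → off (P p) m (P r) ≠ 0) ∧
    ∑ r, sg (off (P p) m (P r)) = 0

/-- `n` points (not necessarily distinct or in general position) with `m` halving pairs -/
def HalGood (n m : ℕ) : Prop :=
  ∃ (V E : Type) (_ : Fintype V) (_ : Fintype E) (P : V → ℝ × ℝ) (lo up : E → V) (sl : E → ℝ),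
    Fintype.card V = n ∧ Fintype.card E = m ∧ (∀ e, (P (lo e)).2 < (P (up e)).2) ∧
    (∀ e, Hal P (lo e) (up e) (sl e)) ∧ (∀ e e', lo e = lo e' → up e = up e' → e = e')

/-- item PERTURB -/
def PerturbStmt : Prop := ∀ n m : ℕ, HalGood n m → Real2 n m

/-- item BLOW -/
def BlowStmt : Prop := ∀ n m a r : ℕ, 0 < a → HalGood n m → HalGood (a * n + 2 * r) (a * m)

/-! ### Digits -/

/-- positive entries, each at least `M` times the previous ones -/
def Sep {J : ℕ} (M : ℝ) (l : Fin J → ℝ) : Prop :=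
  (∀ j, 0 < l j) ∧ ∀ i j : Fin J, i < j → M * l i ≤ l j

def val {J : ℕ} (l : Fin J → ℝ) (i : Fin J → ℤ) : ℝ := ∑ j, (i j : ℝ) * l j

def phi {J : ℕ} (W : ℕ) (i : Fin J → ℤ) : ℤ := ∑ j, i j * (2 * (W:ℤ) + 1) ^ (j : ℕ)

/-- digit vectors with entries in `[-W, W]` -/
abbrev Box (J W : ℕ) : Type := Fin J → (Finset.Icc (-(W:ℤ)) (W:ℤ))

/-- the digit vector of an element of the box -/
def Box.z {J W : ℕ} (i : Box J W) : Fin J → ℤ := fun j => (i j : ℤ)

/-- item DIGITS -/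
def DigitsStmt : Prop :=
  (∀ (J W : ℕ) (M : ℝ) (l : Fin J → ℝ), Sep M l → 2 * (W:ℝ) + 2 ≤ M →
    ∀ d : Fin J → ℤ, (∀ j, |d j| ≤ 2 * (W:ℤ)) →
      SignType.sign (val l d) = SignType.sign (phi W d) ∧ (val l d = 0 → d = 0)) ∧
  (∀ (J W : ℕ) (x : Fin J → ℤ), (∀ j, |x j| ≤ (W:ℤ)) →
    ∑ i : Box J W, (SignType.sign (phi W x - phi W i.z) : ℤ) = 2 * phi W x)

/-! ### S-configurations and T-configurations -/

/-- S-configuration: `V` vertices, `E` used edges, `J` digits bounded by `A`, ratio `M` -/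
structure SData (A J : ℕ) (M : ℝ) (V E : Type) [Fintype V] where
  P : V → ℝ × ℝ
  lo : E → V
  up : E → V
  a : V → ℝ
  lam : V → Fin J → ℝ
  nu : V → Fin J → ℝ
  s : E → Fin J → ℤ
  lam_sep : ∀ v, Sep M (lam v)
  nu_sep : ∀ v, Sep M (nu v)
  hup : ∀ e, (P (lo e)).2 < (P (up e)).2
  LU : ∀ e e', up e ≠ lo e'
  dig : ∀ e j, |s e j| ≤ (A:ℤ)
  dnu : ∀ e j, ((P (up e)).2 - (P (lo e)).2) * lam (lo e) j = nu (up e) j
  hal : ∀ e, Hal P (lo e) (up e) (a (lo e) + val (lam (lo e)) (s e))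
  inj : ∀ e e', lo e = lo e' → up e = up e' → e = e'

def SGood (A J n m : ℕ) : Prop :=
  ∀ M : ℝ, ∃ (V E : Type) (_ : Fintype V) (_ : Fintype E),
    Nonempty (SData A J M V E) ∧ Fintype.card V = n ∧ Fintype.card E = m

/-- T-configuration: integer heights in `[-Y, Y]` with sum `0`; edges go up by `1` -/
structure TData (A Y : ℕ) (T F : Type) [Fintype T] where
  x : T → ℝ
  h : T → ℤ
  lo : F → T
  up : F → T
  a : T → ℝ
  mu : T → ℝ
  nu : T → ℝ
  s : F → ℤ
  /-- signs with sum `0` -/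
  om : T → ℤ
  hY : ∀ t, |h t| ≤ (Y:ℤ)
  hsum : ∑ t, h t = 0
  mu_pos : ∀ t, 0 < mu t
  nu_pos : ∀ t, 0 < nu t
  hup : ∀ f, h (up f) = h (lo f) + 1
  LU : ∀ f f', up f ≠ lo f'
  dig : ∀ f, |s f| ≤ (A:ℤ)
  dnu : ∀ f, mu (lo f) = nu (up f)
  hal : ∀ f, Hal (fun t => (x t, (h t : ℝ))) (lo f) (up f) (a (lo f) + s f * mu (lo f))
  inj : ∀ f f', lo f = lo f' → up f = up f' → f = f'
  om_sign : ∀ t, om t = 1 ∨ om t = -1
  om_sum : ∑ t, om t = 0

def TGood (A Y R m : ℕ) : Prop :=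
  ∃ (T F : Type) (_ : Fintype T) (_ : Fintype F),
    Nonempty (TData A Y T F) ∧ Fintype.card T = R ∧ Fintype.card F = m

/-- item BASE (easy): a T-configuration is an S-configuration with one digit -/
def BaseStmt : Prop := ∀ A Y R m : ℕ, TGood A Y R m → SGood A 1 R m

/-- item PRODUCT -/
def ProductStmt : Prop := ∀ A Y R mT J n m w : ℕ, TGood A Y R mT → SGood A J n m →
  SGood A (J + 1) (n * R * (2 * (w + A * Y) + 1) ^ J) (m * mT * (2 * w + 1) ^ J)

/-! ### The family `T_G` -/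

/-- the data of `T_g`: `I` is the common imbalance of the vertices, `K` the common imbalance of
the points at parameter `l ∈ F` of the other edges -/
structure HData (c g : ℕ) (F : Finset ℝ) (I K : ℤ) (V E : Type) [Fintype V] [Fintype E] where
  x : V → ℝ
  h : V → ℤ
  lo : E → V
  up : E → V
  a : V → ℝ
  mu : ℤ → ℝ
  s : E → ℤ
  h_range : ∀ v, 0 ≤ h v ∧ h v ≤ 2 ^ g
  sumV : ∑ v, (2 * h v - 2 ^ g) = 0
  sumE : ∑ e, (2 * h (lo e) + 1 - 2 ^ g) = 0
  half : 0 < g → 2 * (Finset.univ.filter (fun e => Even (h (lo e)))).card = Fintype.card E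
  mu_pos : ∀ k, 0 < mu k
  hup : ∀ e, h (up e) = h (lo e) + 1
  dig : ∀ e, |s e| ≤ (c:ℤ)
  dx : ∀ e, x (up e) - x (lo e) = a (lo e) + s e * mu (h (lo e))
  vert : ∀ e r, r ≠ lo e → r ≠ up e →
    off (x (lo e), (h (lo e) : ℝ)) (x (up e) - x (lo e)) (x r, (h r : ℝ)) ≠ 0
  sumI : ∀ e, ∑ r, sg (off (x (lo e), (h (lo e) : ℝ)) (x (up e) - x (lo e)) (x r, (h r : ℝ))) = I
  mid : ∀ l ∈ F, ∀ e e', e' ≠ e →
    off (x (lo e), (h (lo e) : ℝ)) (x (up e) - x (lo e))
      (x (lo e') + l * (x (up e') - x (lo e')), (h (lo e') : ℝ) + l) ≠ 0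
  sumK : ∀ l ∈ F, ∀ e, ∑ e', sg (off (x (lo e), (h (lo e) : ℝ)) (x (up e) - x (lo e))
      (x (lo e') + l * (x (up e') - x (lo e')), (h (lo e') : ℝ) + l)) = K
  inj : ∀ e e', lo e = lo e' → up e = up e' → e = e'

def HGood (c g n m : ℕ) (I K : ℤ) : Prop :=
  ∀ F : Finset ℝ, (∀ l ∈ F, 0 < l ∧ l < 1) → ∃ (V E : Type) (_ : Fintype V) (_ : Fintype E),
    Nonempty (HData c g F I K V E) ∧ Fintype.card V = n ∧ Fintype.card E = m

/-- item HBASE (easy): two points, one edge -/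
def HBaseStmt : Prop := ∀ c : ℕ, HGood c 0 2 1 0 0

/-- item HSTEP -/
def HStepStmt : Prop := ∀ (c g n m : ℕ) (I K : ℤ), HGood c g n m I K →
  HGood c (g + 1) ((2 * c + 1) * n + m) (2 * (2 * c + 1) * m)
    ((2 * c + 1) * I + K - 1) (2 * (2 * c + 1) * K - 1)

/-- item HTOT: from `HData` to `TData`, adding `-I` dummies far to the left at the central height,
keeping the edges whose lower vertex has even height -/
def HToTStmt : Prop := ∀ (c g n m : ℕ) (I K : ℤ), 0 < g → 0 < m → I ≤ 0 → HGood c g n (2 * m) I K →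
  TGood c (2 ^ (g - 1)) (n + (-I).toNat) m

/-! ### Numbers -/

/-- item NUM1: the T-configurations obtained from HBASE, HSTEP, HTOT -/
def TNumStmt : Prop := ∀ G : ℕ, 1 ≤ G → ∃ R m : ℕ,
  TGood (2 ^ (G + 2)) (2 ^ (G - 1)) R m ∧
  m = 2 ^ (G - 1) * (2 ^ (G + 3) + 1) ^ G ∧ R ≤ 4 * (2 ^ (G + 3) + 1) ^ G

/-- item NUM2: iterated products -/
def SNumStmt : Prop := ∀ G : ℕ, 10 ≤ G → ∃ n m : ℕ, HalGood n m ∧ 0 < n ∧ Even n ∧
  n ≤ 2 ^ (10 * G ^ 3) ∧ n * 2 ^ (G * G / 4) ≤ m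

/-- item FINAL -/
def MainStmt : Prop := ∃ c : ℝ, 0 < c ∧ ∀ᶠ n : ℕ in Filter.atTop, Even n →
  ∃ P : Finset (ℝ × ℝ), P.card = n ∧ GeneralPosition P ∧
    (n : ℝ) * Real.exp (c * (Real.log n) ^ ((2:ℝ)/3)) ≤ (bisectors P).ncard

end Pool.Agent.Work.MP_e17eac_co.HL
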